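import Pool.Agent.helper79.EPT.Spec
import Pool.Agent.helper29.FC.B6

set_option autoImplicit false

namespace Pool.Agent.EPT

open Finset

lemma PHS_phi (f : ℕ) (hf : 1 ≤ f) : (f : ℝ) ≤ ((Nat.log 2 f : ℝ) + 1) * (f.totient : ℝ) := by
  exact_mod_cast Pool.Agent.helper85.FC.B6_phi f hf

lemma PHS_log (f : ℕ) (hf : 1 ≤ f) : ((Nat.log 2 f : ℝ) + 1) ≤ 16 * (f : ℝ) ^ (1 / 8 : ℝ) := by
  have hf0 : (0 : ℝ) < f := by exact_mod_cast hf
  have h1 : (2 : ℝ) ^ Nat.log 2 f ≤ f := by exact_mod_cast Nat.pow_log_le_self 2 (by omega)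
  have h2 : (2 : ℝ) ^ ((Nat.log 2 f : ℝ) / 8) ≤ (f : ℝ) ^ (1 / 8 : ℝ) := by
    have h3 := Real.rpow_le_rpow (by positivity) h1 (by norm_num : (0 : ℝ) ≤ 1 / 8)
    rw [← Real.rpow_natCast, ← Real.rpow_mul (by norm_num)] at h3
    have e1 : (Nat.log 2 f : ℝ) * (1 / 8) = (Nat.log 2 f : ℝ) / 8 := by ring
    rw [e1] at h3
    exact h3
  have h4 : Real.log 2 * ((Nat.log 2 f : ℝ) / 8) + 1 ≤ (2 : ℝ) ^ ((Nat.log 2 f : ℝ) / 8) := by
    rw [Real.rpow_def_of_pos (by norm_num)]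
    exact Real.add_one_le_exp _
  have h5 := Real.log_two_gt_d9
  have h6 : (0 : ℝ) ≤ (Nat.log 2 f : ℝ) := Nat.cast_nonneg _
  nlinarith

lemma PHS_term (f : ℕ) (hf : 1 ≤ f) : 1 / ((f.totient : ℝ) * √(f.totient : ℝ)) ≤ 256 * (1 / (f : ℝ) ^ (5 / 4 : ℝ)) := by
  have hf0 : (0 : ℝ) < f := by exact_mod_cast hf
  have hφ : (0 : ℝ) < f.totient := by exact_mod_cast Nat.totient_pos.2 hf
  have h1 := PHS_phi f hf
  have h2 := PHS_log f hf
  set L : ℝ := (Nat.log 2 f : ℝ) + 1 with hL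
  have hL1 : 1 ≤ L := by
    rw [hL]
    have h6 : (0 : ℝ) ≤ (Nat.log 2 f : ℝ) := Nat.cast_nonneg _
    linarith
  -- f sqrt f <= L^2 phi sqrt phi
  have h3 : (f : ℝ) * √(f : ℝ) ≤ L ^ 2 * ((f.totient : ℝ) * √(f.totient : ℝ)) := by
    have h4 : √(f : ℝ) ≤ L * √(f.totient : ℝ) := by
      have h5 : √(f : ℝ) ≤ √(L ^ 2 * (f.totient : ℝ)) := by
        apply Real.sqrt_le_sqrt
        nlinarith
      rw [Real.sqrt_mul (by positivity), Real.sqrt_sq (by linarith)] at h5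
      exact h5
    calc (f : ℝ) * √(f : ℝ) ≤ (L * (f.totient : ℝ)) * (L * √(f.totient : ℝ)) := mul_le_mul h1 h4 (Real.sqrt_nonneg _) (by positivity)
      _ = _ := by ring
  have h5 : L ^ 2 ≤ 256 * (f : ℝ) ^ (1 / 4 : ℝ) := by
    have h6 : L ^ 2 ≤ (16 * (f : ℝ) ^ (1 / 8 : ℝ)) ^ 2 := pow_le_pow_left₀ (by linarith) h2 2
    rw [mul_pow, ← Real.rpow_natCast ((f : ℝ) ^ (1 / 8 : ℝ)) 2, ← Real.rpow_mul hf0.le] at h6
    norm_num at h6
    exact h6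
  have h6 : (f : ℝ) * √(f : ℝ) = (f : ℝ) ^ (5 / 4 : ℝ) * (f : ℝ) ^ (1 / 4 : ℝ) := by
    rw [← Real.rpow_add hf0, Real.sqrt_eq_rpow]
    nth_rewrite 1 [← Real.rpow_one (f : ℝ)]
    rw [← Real.rpow_add hf0]
    norm_num
  have hq : 0 < (f : ℝ) ^ (1 / 4 : ℝ) := Real.rpow_pos_of_pos hf0 _
  have hr : 0 < (f : ℝ) ^ (5 / 4 : ℝ) := Real.rpow_pos_of_pos hf0 _
  have hps : 0 < (f.totient : ℝ) * √(f.totient : ℝ) := by positivity
  have h7 : (f : ℝ) ^ (5 / 4 : ℝ) ≤ 256 * ((f.totient : ℝ) * √(f.totient : ℝ)) := by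
    have h8 : (f : ℝ) ^ (5 / 4 : ℝ) * (f : ℝ) ^ (1 / 4 : ℝ) ≤ (256 * ((f.totient : ℝ) * √(f.totient : ℝ))) * (f : ℝ) ^ (1 / 4 : ℝ) := by
      rw [← h6]
      refine h3.trans ?_
      calc L ^ 2 * ((f.totient : ℝ) * √(f.totient : ℝ)) ≤ (256 * (f : ℝ) ^ (1 / 4 : ℝ)) * ((f.totient : ℝ) * √(f.totient : ℝ)) :=
            mul_le_mul_of_nonneg_right h5 hps.le
        _ = _ := by ring
    exact le_of_mul_le_mul_right h8 hq
  rw [mul_one_div, div_le_div_iff₀ hps hr, one_mul]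
  exact h7

lemma PHS_sqrt (f : ℕ) (hf : 1 ≤ f) : 1 / (f.totient : ℝ) ^ 2 ≤ 1 / ((f.totient : ℝ) * √(f.totient : ℝ)) := by
  have hφ1 : (1 : ℝ) ≤ f.totient := by exact_mod_cast Nat.totient_pos.2 hf
  have h1 : √(f.totient : ℝ) ≤ f.totient := by
    rw [Real.sqrt_le_left (by linarith)]
    nlinarith
  have h2 : 0 < √(f.totient : ℝ) := Real.sqrt_pos.2 (by linarith)
  refine one_div_le_one_div_of_le (by positivity) ?_
  nlinarith

lemma PHS_one (s f : ℕ) (hf : 1 ≤ f) (hf2 : f ≤ 2 ^ (2 * s)) : 1 / (f.totient : ℝ) ≤ (2 * (s : ℝ) + 1) * (1 / (f : ℝ)) := by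
  have hf0 : (0 : ℝ) < f := by exact_mod_cast hf
  have hφ : (0 : ℝ) < f.totient := by exact_mod_cast Nat.totient_pos.2 hf
  have h1 := PHS_phi f hf
  have h2 : (Nat.log 2 f : ℝ) ≤ 2 * (s : ℝ) := by
    have h3 : Nat.log 2 f ≤ 2 * s := by
      have := Nat.log_mono_right (b := 2) hf2
      rwa [Nat.log_pow (by norm_num)] at this
    exact_mod_cast h3
  rw [mul_one_div, div_le_div_iff₀ hφ hf0, one_mul]
  nlinarith

theorem PHS : PHS_stmt := by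
  refine ⟨?_, ?_⟩
  · have hsum : Summable fun f : ℕ => 256 * (1 / (f : ℝ) ^ (5 / 4 : ℝ)) :=
      (Real.summable_one_div_nat_rpow.2 (by norm_num)).mul_left _
    refine ⟨max 1 (∑' f : ℕ, 256 * (1 / (f : ℝ) ^ (5 / 4 : ℝ))), le_max_left _ _, fun N => ?_⟩
    have h1 : ∑ f ∈ Icc 1 N, 1 / ((f.totient : ℝ) * √(f.totient : ℝ)) ≤ max 1 (∑' f : ℕ, 256 * (1 / (f : ℝ) ^ (5 / 4 : ℝ))) := by
      refine le_trans (Finset.sum_le_sum fun f hf => PHS_term f (Finset.mem_Icc.1 hf).1) ?_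
      refine le_trans (hsum.sum_le_tsum _ fun f _ => by positivity) (le_max_right _ _)
    refine ⟨h1, le_trans (Finset.sum_le_sum fun f hf => PHS_sqrt f (Finset.mem_Icc.1 hf).1) h1⟩
  · intro s D hD
    have hlog : Real.log ((2 ^ (2 * s) : ℕ) : ℝ) ≤ 2 * (s : ℝ) := by
      push_cast
      rw [Real.log_pow]
      push_cast
      have h5 := Real.log_two_lt_d9
      have h6 : (0 : ℝ) ≤ (s : ℝ) := Nat.cast_nonneg _
      nlinarith
    have hD0 : (0 : ℝ) < D := by exact_mod_cast hD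
    have hsq : ∑ f ∈ Ioc D (2 ^ (2 * s)), 1 / ((f : ℝ) ^ 2) ≤ 1 / (D : ℝ) := by
      by_cases h : D ≤ 2 ^ (2 * s)
      · have h1 := sum_Ioc_inv_sq_le_sub (α := ℝ) (k := D) (n := 2 ^ (2 * s)) (by omega) h
        have h2 : (0 : ℝ) ≤ (((2 ^ (2 * s) : ℕ) : ℝ))⁻¹ := by positivity
        simp only [one_div]
        linarith
      · rw [Finset.Ioc_eq_empty (by omega), Finset.sum_empty]
        positivity
    refine ⟨?_, ?_, hsq, by linarith⟩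
    · have h1 : ∑ f ∈ Icc 1 (2 ^ (2 * s)), 1 / (f.totient : ℝ) ≤ ∑ f ∈ Icc (1 : ℕ) (2 ^ (2 * s)), (2 * (s : ℝ) + 1) * (1 / (f : ℝ)) :=
        Finset.sum_le_sum fun f hf => PHS_one s f (Finset.mem_Icc.1 hf).1 (Finset.mem_Icc.1 hf).2
      refine h1.trans ?_
      rw [← Finset.mul_sum, pow_two]
      refine mul_le_mul_of_nonneg_left ?_ (by positivity)
      have h3 := harmonic_le_one_add_log (2 ^ (2 * s))
      rw [harmonic_eq_sum_Icc] at h3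
      push_cast at h3 hlog
      simp only [one_div]
      linarith
    · have h1 : ∑ f ∈ Ioc D (2 ^ (2 * s)), 1 / ((f : ℝ) * (f.totient : ℝ)) ≤ ∑ f ∈ Ioc D (2 ^ (2 * s)), (2 * (s : ℝ) + 1) * (1 / (f : ℝ) ^ 2) := by
        refine Finset.sum_le_sum fun f hf => ?_
        have hf1 : 1 ≤ f := by
          have := (Finset.mem_Ioc.1 hf).1
          omega
        have hf0 : (0 : ℝ) < f := by exact_mod_cast hf1
        have h2 := PHS_one s f hf1 (Finset.mem_Ioc.1 hf).2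
        calc 1 / ((f : ℝ) * (f.totient : ℝ)) = (1 / (f : ℝ)) * (1 / (f.totient : ℝ)) := by rw [one_div_mul_one_div]
          _ ≤ (1 / (f : ℝ)) * ((2 * (s : ℝ) + 1) * (1 / (f : ℝ))) := mul_le_mul_of_nonneg_left h2 (by positivity)
          _ = _ := by
            rw [pow_two]
            field_simp
      refine h1.trans ?_
      rw [← Finset.mul_sum, div_eq_mul_one_div]
      exact mul_le_mul_of_nonneg_left hsq (by positivity)

end Pool.Agent.EPT
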