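import Pool.Agent.helper79.EPT.Spec

set_option autoImplicit false

namespace Pool.Agent.EPT

open Finset

theorem PLW : PLW_stmt := by
  intro n A
  have h1 := tendsto_pow_const_div_const_pow_of_one_lt n (r := (2 : ℝ)) (by norm_num)
  have h2 : Filter.Tendsto (fun j : ℕ => (|A| * 8 ^ n * 2) * ((j : ℝ) ^ n / 2 ^ j)) Filter.atTop (nhds ((|A| * 8 ^ n * 2) * 0)) := h1.const_mul _
  rw [mul_zero] at h2
  obtain ⟨j₀, hj⟩ := Filter.eventually_atTop.1 (h2.eventually (ge_mem_nhds (zero_lt_one)))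
  refine ⟨8 * j₀, fun s hs => ?_⟩
  have h3 := hj (s / 8 + 1) (by omega)
  have h4 : ((s : ℝ) + 1) ≤ 8 * ((s / 8 + 1 : ℕ) : ℝ) := by
    have : s + 1 ≤ 8 * (s / 8 + 1) := by omega
    exact_mod_cast this
  have h5 : A * ((s : ℝ) + 1) ^ n ≤ |A| * (8 * ((s / 8 + 1 : ℕ) : ℝ)) ^ n :=
    mul_le_mul (le_abs_self A) (pow_le_pow_left₀ (by positivity) h4 n) (by positivity) (abs_nonneg A)
  refine h5.trans ?_
  rw [mul_pow]
  have h6 : (0 : ℝ) < 2 ^ (s / 8 + 1) := by positivity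
  rw [← mul_div_assoc, div_le_one h6, pow_succ] at h3
  nlinarith

end Pool.Agent.EPT
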