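import Pool.Agent.helper79.EPT.Spec

set_option autoImplicit false

namespace Pool.Agent.EPT

open Finset

theorem TRM : TRM_stmt := by
  intro S Y m hm hY hS
  have hm0 : (0 : ℝ) < m := by exact_mod_cast hm
  have h1 : ∑ x ∈ S, 1 / (x : ℝ) = (∑ i ∈ S.image (fun x => x / m), 1 / (i : ℝ)) / m := by
    rw [Finset.sum_image, Finset.sum_div]
    · refine Finset.sum_congr rfl fun x hx => ?_
      obtain ⟨-, -, c, rfl⟩ := hS x hx
      rw [Nat.mul_div_cancel_left _ (by omega)]
      push_cast
      rw [div_div, mul_comm]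
    · intro x hx y hy h
      obtain ⟨-, -, c, rfl⟩ := hS x hx
      obtain ⟨-, -, d, rfl⟩ := hS y hy
      simp only [Nat.mul_div_cancel_left _ (show 0 < m by omega)] at h
      rw [h]
  rw [h1]
  refine div_le_div_of_nonneg_right ?_ hm0.le
  have h2 : S.image (fun x => x / m) ⊆ Icc 1 Y := by
    intro i hi
    obtain ⟨x, hx, rfl⟩ := Finset.mem_image.1 hi
    obtain ⟨h3, h4, c, rfl⟩ := hS x hx
    rw [Nat.mul_div_cancel_left _ (by omega), Finset.mem_Icc]
    constructor
    · by_contra h
      have : c = 0 := by omega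
      rw [this] at h3
      omega
    · calc c ≤ m * c := Nat.le_mul_of_pos_left c (by omega)
        _ ≤ Y := h4
  refine le_trans (Finset.sum_le_sum_of_subset_of_nonneg h2 fun i _ _ => by positivity) ?_
  have h3 := harmonic_le_one_add_log Y
  rw [harmonic_eq_sum_Icc] at h3
  push_cast at h3
  simp only [one_div]
  exact h3

end Pool.Agent.EPT
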